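import Pool.Agent.MP_154433_an.t3.Defs

/-! Coincidence of two conditionally independent types forces atoms over the base. -/

set_option autoImplicit false
set_option linter.unusedVariables false
set_option warn.classDefReducibility false

open MeasureTheory ProbabilityTheory Filter Topology Function Finset ComplexConjugate
open scoped BigOperators
open Fib27 (BM)
open T3x (CP)

noncomputable section

namespace T4g

namespace Atom

variable {Ω : Type} {C D C2 m0 : MeasurableSpace Ω} {μ : Measure Ω} [IsProbabilityMeasure μ]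

/-- conditional probability -/
def cp (D : MeasurableSpace Ω) {m0 : MeasurableSpace Ω} (μ : Measure Ω) (A : Set Ω) : Ω → ℝ :=
  μ[A.indicator fun _ => (1 : ℝ) | D]

theorem int1 {A : Set Ω} (hA : MeasurableSet A) : Integrable (A.indicator fun _ => (1 : ℝ)) μ :=
  (integrable_const _).indicator hA

theorem cx (D : MeasurableSpace Ω) {m0 : MeasurableSpace Ω} (μ : Measure Ω)
    [IsProbabilityMeasure μ] {A : Set Ω} (hA : MeasurableSet A) :
    μ[A.indicator fun _ => (1 : ℂ) | D] =ᵐ[μ] fun x => ((cp D μ A x : ℝ) : ℂ) := by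
  have h := Complex.ofRealCLM.comp_condExp_comm (m := D) (int1 (μ := μ) hA)
  have e : (Complex.ofRealCLM ∘ A.indicator fun _ => (1 : ℝ)) = A.indicator fun _ => (1 : ℂ) := by
    funext x
    by_cases hx : x ∈ A <;> simp [hx]
  rw [e] at h
  exact h.symm

theorem cp_eq (h2 : C2 ≤ m0) (h : CP C2 D C μ) {A : Set Ω} (hA : MeasurableSet[C2] A) :
    cp C μ A =ᵐ[μ] cp D μ A := by
  filter_upwards [h _ (Fib27.BM.indicator (κ := μ) hA), cx C μ (h2 _ hA), cx D μ (h2 _ hA)]
    with x e e1 e2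
  rw [e1, e2] at e
  exact_mod_cast e

theorem loc_le (hC : C ≤ m0) {S : Set Ω} (hS : MeasurableSet[C] S) {f g : Ω → ℝ}
    (hf : Integrable f μ) (hg : Integrable g μ) (h : ∀ x ∈ S, f x ≤ g x) :
    ∀ᵐ x ∂μ, x ∈ S → (μ[f | C]) x ≤ (μ[g | C]) x := by
  have h1 := condExp_mono (m := C) (hf.indicator (hC _ hS)) (hg.indicator (hC _ hS))
    (Eventually.of_forall fun x => by
      by_cases hx : x ∈ S
      · simpa [hx] using h x hx
      · simp [hx])
  filter_upwards [h1, condExp_indicator hf hS, condExp_indicator hg hS] with x e e1 e2 hx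
  rw [e1, e2] at e
  simpa [hx] using e

theorem set_int (hC : C ≤ m0) {S A : Set Ω} (hS : MeasurableSet[C] S) (hA : MeasurableSet A) :
    ∫ x in S, cp C μ A x ∂μ = μ.real (S ∩ A) := by
  unfold cp
  rw [setIntegral_condExp hC (int1 hA) hS, setIntegral_indicator hA]
  simp

/-- along a decreasing sequence the conditional probabilities come close to that of the limit -/
theorem close (hC : C ≤ m0) (E : ℕ → Set Ω) (hE : ∀ n, MeasurableSet (E n)) (ha : Antitone E) :
    ∀ᵐ x ∂μ, x ∈ ⋂ n, E n → ∃ n, cp C μ (E n) x < 2 * cp C μ (⋂ n, E n) x := by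
  have hI : MeasurableSet (⋂ n, E n) := MeasurableSet.iInter hE
  set S : Set Ω := ⋂ n, {x | 2 * cp C μ (⋂ n, E n) x ≤ cp C μ (E n) x} with hSd
  have hS : MeasurableSet[C] S := MeasurableSet.iInter fun n =>
    measurableSet_le (stronglyMeasurable_condExp.measurable.const_mul 2)
      stronglyMeasurable_condExp.measurable
  have h1 : ∀ n, 2 * μ.real (S ∩ ⋂ n, E n) ≤ μ.real (S ∩ E n) := fun n => by
    rw [← set_int hC hS hI, ← set_int hC hS (hE n), ← integral_const_mul]
    exact setIntegral_mono_on (integrable_condExp.const_mul 2).integrableOn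
      integrable_condExp.integrableOn (hC _ hS) fun x hx => Set.mem_iInter.1 hx n
  have h2 : Tendsto (fun n => μ (S ∩ E n)) atTop (𝓝 (μ (⋂ n, S ∩ E n))) :=
    tendsto_measure_iInter_atTop (fun n => ((hC _ hS).inter (hE n)).nullMeasurableSet)
      (fun n n' h => Set.inter_subset_inter_right _ (ha h)) ⟨0, measure_ne_top _ _⟩
  rw [← Set.inter_iInter] at h2
  have h3 := ge_of_tendsto' ((ENNReal.tendsto_toReal (measure_ne_top _ _)).comp h2) h1
  have h4 : μ.real (S ∩ ⋂ n, E n) = 0 := by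
    have : 0 ≤ μ.real (S ∩ ⋂ n, E n) := measureReal_nonneg
    have h5 : 2 * μ.real (S ∩ ⋂ n, E n) ≤ μ.real (S ∩ ⋂ n, E n) := h3
    linarith
  filter_upwards [measure_eq_zero_iff_ae_notMem.1
    ((measureReal_eq_zero_iff (measure_ne_top _ _)).1 h4)] with x hx hm
  by_contra hn
  exact hx ⟨Set.mem_iInter.2 fun n => not_lt.1 fun h => hn ⟨n, h⟩, hm⟩

/-- a pattern on a finite set of indices -/
def pat {κ : Type} (a : Ω → κ → Prop) (K s : Finset κ) : Set Ω := {x | ∀ i ∈ K, a x i ↔ i ∈ s}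

theorem pat_meas {κ : Type} {a : Ω → κ → Prop} (ha : ∀ i, MeasurableSet[C] {x | a x i})
    (K s : Finset κ) : MeasurableSet[C] (pat a K s) := by
  have : pat a K s = ⋂ i ∈ K, {x | a x i ↔ i ∈ s} := by
    ext x
    simp [pat]
  rw [this]
  refine Finset.measurableSet_biInter K fun i _ => ?_
  by_cases h : i ∈ s
  · simpa [h] using ha i
  · have := (ha i).compl
    simpa [h, Set.compl_ofPred] using this

end Atom

open Atom in
theorem atom {Ω κ : Type} [Countable κ] (C1 C2 D : MeasurableSpace Ω) {m0 : MeasurableSpace Ω}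
    (μ : Measure Ω) [IsProbabilityMeasure μ] (h1 : C1 ≤ m0) (h2 : C2 ≤ m0) (h : CP C2 D C1 μ)
    (a b : Ω → κ → Prop) (ha : ∀ i, MeasurableSet[C1] {x | a x i})
    (hb : ∀ i, MeasurableSet[C2] {x | b x i}) :
    ∃ θ : ℕ → Ω → κ → Prop, (∀ n i, MeasurableSet[D] {x | θ n x i}) ∧
      ∀ᵐ x ∂μ, a x = b x → ∃ n, a x = θ n x := by
  classical
  obtain ⟨en, hen⟩ := exists_surjective_nat (Finset κ × Finset κ)
  obtain ⟨K, hKm, hK⟩ : ∃ K : ℕ → Finset κ, Monotone K ∧ ∀ i, ∃ n, i ∈ K n := by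
    obtain ⟨f, hf⟩ := exists_surjective_nat (Finset κ)
    exact ⟨fun n => (range (n + 1)).biUnion f,
      fun n n' h => biUnion_subset_biUnion_of_subset_left _ (range_mono (by omega)), fun i => by
        obtain ⟨n, hn⟩ := hf {i}
        exact ⟨n, mem_biUnion.2 ⟨n, self_mem_range_succ n, by simp [hn]⟩⟩⟩
  refine ⟨fun n x i => cp D μ (pat b (en n).1 (en n).2) x <
    2 * cp D μ (pat b (en n).1 (en n).2 ∩ {x | b x i}) x, fun n i =>
      measurableSet_lt stronglyMeasurable_condExp.measurable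
        (stronglyMeasurable_condExp.measurable.const_mul 2), ?_⟩
  set E : ℕ → Set Ω := fun n => {x | ∀ i ∈ K n, a x i ↔ b x i} with hEd
  have hE : ∀ n, MeasurableSet (E n) := fun n => by
    have : E n = ⋂ i ∈ K n, {x | a x i ↔ b x i} := by
      ext x
      simp [hEd]
    rw [this]
    exact Finset.measurableSet_biInter _ fun i _ => (h1 _ (ha i)).iff (h2 _ (hb i))
  have hI : MeasurableSet (⋂ n, E n) := MeasurableSet.iInter hE
  have hall : ∀ x ∈ ⋂ n, E n, ∀ i, a x i ↔ b x i := fun x hx i => by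
    obtain ⟨n, hn⟩ := hK i
    exact Set.mem_iInter.1 hx n i hn
  have hp := fun n s => pat_meas hb (K n) s
  have ind : ∀ {A A' : Set Ω} {x : Ω}, (x ∈ A → x ∈ A') →
      A.indicator (fun _ => (1 : ℝ)) x ≤ A'.indicator (fun _ => (1 : ℝ)) x := by
    intro A A' x hx
    by_cases h : x ∈ A
    · simp [h, hx h]
    · rw [Set.indicator_of_notMem h]
      exact Set.indicator_nonneg (fun _ _ => zero_le_one) x
  have tr : ∀ n s, ∀ x ∈ pat a (K n) s, x ∈ ⋂ n, E n → x ∈ pat b (K n) s :=
    fun n s x hx hm i hi => (hall x hm i).symm.trans (hx i hi)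
  have e1 : ∀ n s, ∀ᵐ x ∂μ, x ∈ pat a (K n) s → cp C1 μ (pat b (K n) s) x ≤ cp C1 μ (E n) x :=
    fun n s => loc_le h1 (pat_meas ha _ _) (int1 (h2 _ (hp n s))) (int1 (hE n)) fun x hx =>
      ind fun hx' i hi => (hx i hi).trans (hx' i hi).symm
  have e2 : ∀ n s i, ∀ᵐ x ∂μ, x ∈ pat a (K n) s ∩ {x | a x i} →
      cp C1 μ (⋂ n, E n) x ≤ cp C1 μ (pat b (K n) s ∩ {x | b x i}) x :=
    fun n s i => loc_le h1 ((pat_meas ha _ _).inter (ha i)) (int1 hI)
      (int1 (h2 _ ((hp n s).inter (hb i)))) fun x hx =>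
      ind fun hm => ⟨tr n s x hx.1 hm, (hall x hm i).1 hx.2⟩
  have e3 : ∀ n s i, ∀ᵐ x ∂μ, x ∈ pat a (K n) s ∩ {x | a x i}ᶜ →
      cp C1 μ (⋂ n, E n) x + cp C1 μ (pat b (K n) s ∩ {x | b x i}) x ≤
        cp C1 μ (pat b (K n) s) x := fun n s i => by
    have i1 := int1 (μ := μ) hI
    have i2 := int1 (μ := μ) (h2 _ ((hp n s).inter (hb i)))
    have := loc_le h1 ((pat_meas ha (K n) s).inter (ha i).compl) (i1.add i2)
      (int1 (h2 _ (hp n s))) fun x hx => by
        by_cases hm : x ∈ ⋂ n, E n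
        · have h3 : x ∉ pat b (K n) s ∩ {x | b x i} := fun h3 => hx.2 ((hall x hm i).2 h3.2)
          rw [Pi.add_apply, Set.indicator_of_notMem h3, add_zero]
          exact ind (tr n s x hx.1)
        · rw [Pi.add_apply, Set.indicator_of_notMem hm, zero_add]
          exact ind fun h3 => h3.1
    filter_upwards [this, condExp_add i1 i2 C1] with x e e' hx
    have := e hx
    rwa [e'] at this
  filter_upwards [close h1 E hE fun n n' hn x hx i hi => hx i (hKm hn hi),
    ae_all_iff.2 fun n => ae_all_iff.2 (e1 n),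
    ae_all_iff.2 fun n => ae_all_iff.2 fun s => ae_all_iff.2 (e2 n s),
    ae_all_iff.2 fun n => ae_all_iff.2 fun s => ae_all_iff.2 (e3 n s),
    ae_all_iff.2 fun n => ae_all_iff.2 fun s => cp_eq h2 h (hp n s),
    ae_all_iff.2 fun n => ae_all_iff.2 fun s => ae_all_iff.2 fun i =>
      cp_eq h2 h ((hp n s).inter (hb i))] with x c0 c1 c2 c3 c4 c5 hab
  obtain ⟨n, hn⟩ := c0 (Set.mem_iInter.2 fun n i _ => by rw [hab])
  obtain ⟨m, hm⟩ := hen (K n, (K n).filter fun i => a x i)
  have hx : x ∈ pat a (K n) ((K n).filter fun i => a x i) := fun i hi => by simp [hi]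
  refine ⟨m, funext fun i => propext ?_⟩
  simp only [hm]
  rw [← c4, ← c5]
  have d1 := c1 n _ hx
  constructor
  · intro hi
    have := c2 n _ i ⟨hx, hi⟩
    linarith
  · intro hlt
    by_contra hi
    have := c3 n _ i ⟨hx, hi⟩
    linarith

end T4g

end
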